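import Pool.Agent.U312.RT.Fin

set_option autoImplicit false

namespace Pool.Agent.Results.MP_27fa52_an.IncompleteTranslates

open MeasureTheory Set Filter Topology

/-- A weight with `α_+ = α_- = 0`: measurable, `≥ 1`, submultiplicative on `ℝ`,
`log φ(t) / t → 0` as `t → ±∞`. -/
def IsWeight (φ : ℝ → ℝ) : Prop :=
  Measurable φ ∧ (∀ t, 1 ≤ φ t) ∧ (∀ t τ, φ (t + τ) ≤ φ t * φ τ) ∧
  Tendsto (fun t => Real.log (φ t) / t) atTop (𝓝 0) ∧
  Tendsto (fun t => Real.log (φ t) / t) atBot (𝓝 0)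

/-- `f ∈ L^1_φ(ℝ_+)`: `f` is measurable, vanishes on `(-∞, 0)` and `∫_0^∞ |f| φ < ∞`. -/
def InL1 (φ : ℝ → ℝ) (f : ℝ → ℂ) : Prop :=
  AEStronglyMeasurable f volume ∧ (∀ t, t < 0 → f t = 0) ∧
  IntegrableOn (fun t => ‖f t‖ * φ t) (Set.Ioi 0)

/-- `g ∈ L^∞_φ(ℝ_+)`: `g` is measurable on `(0, ∞)` and `g / φ` is essentially bounded there. -/
def InLinf (φ : ℝ → ℝ) (g : ℝ → ℂ) : Prop :=
  AEStronglyMeasurable g (volume.restrict (Set.Ioi 0)) ∧
  ∃ K : ℝ, ∀ᵐ t ∂(volume.restrict (Set.Ioi (0:ℝ))), ‖g t‖ ≤ K * φ t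

/-- The transform `∫_0^∞ f(t) e^{-itz} dt`. -/
noncomputable def hat (f : ℝ → ℂ) (z : ℂ) : ℂ :=
  ∫ t in Set.Ioi (0:ℝ), f t * Complex.exp (-(Complex.I * (t:ℂ) * z))

/-- The two conditions on the transform of `f`: it has no zero in `Im z ≤ 0` and
`limsup_{y → -∞} log |hat f (iy)| / |y| = 0` (a limsup of extended real numbers). -/
def TransformConditions (f : ℝ → ℂ) : Prop :=
  (∀ z : ℂ, z.im ≤ 0 → hat f z ≠ 0) ∧
  Filter.limsup (fun y : ℝ => ((Real.log ‖hat f (y * Complex.I)‖ / |y| : ℝ) : EReal)) atBot = 0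

/-- **Q1 has a negative answer.**  There are a weight `φ` with `α_± = 0`, a function
`f ∈ L^1_φ(ℝ_+)` satisfying both conditions on its transform, and a `g ∈ L^∞_φ(ℝ_+)`, not a.e.
zero, with `∫_0^∞ f(t) g(t+τ) dt = 0` for all `τ > 0`. -/
theorem result : ∃ (φ : ℝ → ℝ) (f g : ℝ → ℂ),
    IsWeight φ ∧ InL1 φ f ∧ TransformConditions f ∧ InLinf φ g ∧
    (∀ τ : ℝ, 0 < τ → ∫ t in Set.Ioi (0:ℝ), f t * g (t + τ) = 0) ∧
    ¬ (∀ᵐ t ∂(volume.restrict (Set.Ioi (0:ℝ))), g t = 0) := by
  obtain ⟨p, f, g, ⟨hpm, hp0, hpa, hp1, hp2⟩, ⟨hfm, hf0, hfi⟩, hhat, ⟨hgm, hgb⟩, hort, hgne⟩ :=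
    Pool.Agent.U312.RT.main
  have hkey : ∀ z : ℂ, z.im ≤ 0 →
      ‖(1 + Complex.I * z) * hat (fun t => (f t : ℂ)) z - 1‖ ≤ 1 / 2 := by
    intro z hz
    have h1 := hhat (-(Complex.I * z)) (by simpa using hz)
    have h2 : hat (fun t => (f t : ℂ)) z =
        ∫ t in Ioi (0:ℝ), (f t : ℂ) * Complex.exp (-(Complex.I * z) * t) := by
      unfold hat
      congr 1
      funext t
      congr 2
      ring
    rw [h2]
    rwa [sub_neg_eq_add] at h1
  refine ⟨fun t => Real.exp (p t), fun t => (f t : ℂ), g, ⟨by fun_prop, ?_, ?_, ?_, ?_⟩,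
    ⟨?_, ?_, ?_⟩, ⟨?_, ?_⟩, ⟨hgm, 2, ?_⟩, hort, ?_⟩
  · intro t
    exact Real.one_le_exp (hp0 t)
  · intro t τ
    rw [← Real.exp_add]
    exact Real.exp_le_exp.2 (hpa t τ)
  · simpa only [Real.log_exp] using hp1
  · simpa only [Real.log_exp] using hp2
  · exact (Complex.measurable_ofReal.comp hfm).aestronglyMeasurable
  · intro t ht
    show (f t : ℂ) = 0
    rw [hf0 t ht, Complex.ofReal_zero]
  · simpa only [Complex.norm_real, Real.norm_eq_abs] using hfi
  · intro z hz h0
    have h1 := hkey z hz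
    rw [h0, mul_zero, zero_sub, norm_neg, norm_one] at h1
    norm_num at h1
  · apply Tendsto.limsup_eq
    have hreal : Tendsto (fun y : ℝ => Real.log ‖hat (fun t => (f t : ℂ)) (y * Complex.I)‖ / |y|)
        atBot (𝓝 0) := by
      have hb : Tendsto (fun y : ℝ => Real.log 2 / |y| +
          2 * (Real.log (1 - y) / (1 - y))) atBot (𝓝 0) := by
        have h1 : Tendsto (fun y : ℝ => Real.log 2 / |y|) atBot (𝓝 0) :=
          tendsto_const_nhds.div_atTop tendsto_abs_atBot_atTop
        have h2 : Tendsto (fun y : ℝ => 1 - y) atBot atTop :=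
          tendsto_const_nhds.add_atTop tendsto_neg_atBot_atTop
        have h3 : Tendsto (fun x : ℝ => Real.log x / x) atTop (𝓝 0) :=
          Real.isLittleO_log_id_atTop.tendsto_div_nhds_zero
        simpa using h1.add ((h3.comp h2).const_mul 2)
      apply squeeze_zero_norm' _ hb
      filter_upwards [eventually_le_atBot (-1 : ℝ)] with y hy
      have h1 := hkey (y * Complex.I) (by simp; linarith)
      have h2 : (1:ℂ) + Complex.I * (y * Complex.I) = ((1 - y : ℝ) : ℂ) := by
        have : Complex.I * (y * Complex.I) = y * (Complex.I * Complex.I) := by ring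
        rw [this, Complex.I_mul_I]
        push_cast; ring
      rw [h2] at h1
      set H : ℂ := hat (fun t => (f t : ℂ)) (y * Complex.I) with hH
      have hy1 : 0 < 1 - y := by linarith
      have h3 : ‖((1 - y : ℝ) : ℂ) * H‖ = (1 - y) * ‖H‖ := by
        rw [norm_mul, Complex.norm_real, Real.norm_of_nonneg hy1.le]
      have h4 : (1 - y) * ‖H‖ ≤ 3 / 2 := by
        rw [← h3]
        have := norm_add_le (((1 - y : ℝ) : ℂ) * H - 1) 1
        rw [sub_add_cancel, norm_one] at this
        linarith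
      have h5 : 1 / 2 ≤ (1 - y) * ‖H‖ := by
        rw [← h3]
        have := norm_sub_le (((1 - y : ℝ) : ℂ) * H) (((1 - y : ℝ) : ℂ) * H - 1)
        rw [sub_sub_cancel, norm_one] at this
        linarith
      have hHp : 0 < ‖H‖ := by
        by_contra h
        have : ‖H‖ = 0 := le_antisymm (not_lt.1 h) (norm_nonneg _)
        rw [this, mul_zero] at h5
        norm_num at h5
      have h6 : Real.log ((1 - y) * ‖H‖) = Real.log (1 - y) + Real.log ‖H‖ :=
        Real.log_mul hy1.ne' hHp.ne'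
      have h7 : |Real.log ((1 - y) * ‖H‖)| ≤ Real.log 2 := by
        rw [abs_le]
        constructor
        · rw [← Real.log_inv]
          apply Real.log_le_log (by norm_num)
          rw [← one_div]; exact h5
        · apply Real.log_le_log (by positivity)
          linarith
      have h8 : 0 ≤ Real.log (1 - y) := Real.log_nonneg (by linarith)
      have h9 : |Real.log ‖H‖| ≤ Real.log 2 + Real.log (1 - y) := by
        have := abs_le.1 h7
        rw [abs_le]
        constructor <;> linarith [this.1, this.2]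
      rw [norm_div, Real.norm_eq_abs, Real.norm_eq_abs, abs_abs]
      have hya : |y| = -y := abs_of_neg (by linarith)
      have hy0 : 0 < |y| := by rw [hya]; linarith
      calc |Real.log ‖H‖| / |y| ≤ (Real.log 2 + Real.log (1 - y)) / |y| := by gcongr
        _ = Real.log 2 / |y| + Real.log (1 - y) / |y| := by rw [add_div]
        _ ≤ Real.log 2 / |y| + 2 * (Real.log (1 - y) / (1 - y)) := by
            gcongr
            rw [mul_div_assoc', div_le_div_iff₀ hy0 hy1, hya]
            nlinarith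
    exact (continuous_coe_real_ereal.tendsto (0:ℝ)).comp hreal
  · filter_upwards [ae_restrict_mem measurableSet_Ioi] with t ht
    exact hgb t (le_of_lt ht)
  · intro h
    rw [ae_restrict_iff' measurableSet_Ioi] at h
    have h1 : volume (Ioc (0:ℝ) 1) = 0 := by
      apply measure_mono_null _ h
      intro t ht h2
      exact hgne t ht.1.le ht.2 (h2 ht.1)
    rw [Real.volume_Ioc] at h1
    norm_num at h1

end Pool.Agent.Results.MP_27fa52_an.IncompleteTranslates
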